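import Mathlib
import Pool.Agent.H27.XrayA

set_option autoImplicit false

namespace Pool.Agent.Results.MP_113557_an.Ghost

open Filter Topology MeasureTheory Set BoundedContinuousFunction

section Aux

open Pool.Agent.H27.XrayA

theorem exists_N : ∃ (N : ℝ → ℝ) (p : ℕ → ℝ) (K : ℝ), Continuous N ∧ (∀ x, |N x| ≤ K) ∧
    (∀ x y, |N (x + y) - 2 * N x + N (x - y)| ≤ K * y ^ 2) ∧ (∀ x, 4 ≤ |x| → N x = 0) ∧
    (∃ x, N x ≠ 0) ∧ Function.Injective p ∧ ∀ j, N (p j) = 0 ∧
      Integrable (fun x => N (p j + x) / x ^ 2) ∧ ∫ x, N (p j + x) / x ^ 2 = 0 := by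
  obtain ⟨l, a, hl0, hl1, ha0, ha⟩ := coeffs
  obtain ⟨K, hK, hK1, hK2⟩ := β_bd
  have hlk : ∀ k : ℕ, 0 < l ^ k := fun k => pow_pos hl0 k
  have hlk1 : ∀ k : ℕ, l ^ k ≤ 1 := fun k => pow_le_one₀ hl0.le (by linarith)
  let c : ℕ → ℝ := fun k => a k * (1 / 2) ^ k
  have hc : ∀ k, |c k| ≤ ‖a‖ * (1 / 2) ^ k := fun k => by
    simp only [c, abs_mul, abs_of_pos (pow_pos (one_half_pos (α := ℝ)) k)]
    exact mul_le_mul_of_nonneg_right (a.norm_coe_le_norm k) (by positivity)
  let T : ℕ → ℝ → ℝ := fun k t => c k * ((l ^ k) ^ 2 * β (t / l ^ k))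
  have hg : ∀ M : ℝ, HasSum (fun k : ℕ => ‖a‖ * (1 / 2) ^ k * M) (‖a‖ * 2 * M) := fun M =>
    (hasSum_geometric_two.mul_left _).mul_right _
  have hT : ∀ k t, ‖T k t‖ ≤ ‖a‖ * (1 / 2) ^ k * K := fun k t => by
    rw [Real.norm_eq_abs, abs_mul]
    refine mul_le_mul (hc k) ?_ (abs_nonneg _) (by positivity)
    rw [abs_mul, abs_of_nonneg (sq_nonneg _)]
    exact (mul_le_of_le_one_left (abs_nonneg _) (pow_le_one₀ (hlk k).le (hlk1 k))).trans (hK1 _)
  have hTs : ∀ t, Summable fun k => T k t := fun t => Summable.of_norm_bounded (hg K).summable (hT · t)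
  have hTc : ∀ k, Continuous (T k) := fun k =>
    continuous_const.mul (continuous_const.mul (β_cont.comp (continuous_id.div_const _)))
  have hNc : Continuous fun t => ∑' k, T k t := continuous_tsum hTc (hg K).summable hT
  have hNb : ∀ t, |∑' k, T k t| ≤ ‖a‖ * 2 * K := fun t => tsum_of_norm_bounded (hg K) (hT · t)
  have hN0 : ∀ t, (∀ k, t / l ^ k ∉ Icc (2 : ℝ) 3) → ∑' k, T k t = 0 := fun t ht => by
    simp [T, β_zero _ (ht _)]
  have hfar : ∀ t, 4 ≤ |t| → ∑' k, T k t = 0 := fun t ht => hN0 t fun k hk => by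
    have h1 := hk.1
    have h2 := hk.2
    rw [le_div_iff₀ (hlk k)] at h1
    rw [div_le_iff₀ (hlk k)] at h2
    rw [abs_of_pos (by linarith [hlk k])] at ht
    linarith [hlk1 k]
  have hnear : ∀ j x, |x| < l ^ j / 4 → ∑' k, T k (l ^ j + x) = 0 := fun j x hx =>
    hN0 _ fun k hk => by
      have h1 := hk.1
      have h2 := hk.2
      rw [le_div_iff₀ (hlk k)] at h1
      rw [div_le_iff₀ (hlk k)] at h2
      have h3 := abs_lt.1 hx
      rcases far_pow hl0 hl1 j k with h | h
      · have := (div_le_one (hlk k)).1 h.2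
        linarith [hlk j]
      · rw [le_div_iff₀ (hlk k)] at h
        linarith
  refine ⟨fun t => ∑' k, T k t, fun j => l ^ (j + 1), ‖a‖ * 2 * K, hNc, hNb, fun x y => ?_, hfar,
    ?_, fun i j hij => ?_, fun j => ⟨?_, ?_, ?_⟩⟩
  · beta_reduce
    rw [← tsum_mul_left, ← (hTs _).tsum_sub ((hTs _).mul_left 2),
      ← ((hTs _).sub ((hTs _).mul_left 2)).tsum_add (hTs _), mul_assoc]
    refine le_trans (tsum_of_norm_bounded (f := fun k => T k (x + y) - 2 * T k x + T k (x - y))
      (hg (K * y ^ 2)) fun k => ?_) (le_of_eq (by ring))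
    have e : T k (x + y) - 2 * T k x + T k (x - y) = c k * ((l ^ k) ^ 2 *
        (β (x / l ^ k + y / l ^ k) - 2 * β (x / l ^ k) + β (x / l ^ k - y / l ^ k))) := by
      simp only [T, add_div, sub_div]; ring
    rw [e, Real.norm_eq_abs, abs_mul]
    refine mul_le_mul (hc k) ?_ (abs_nonneg _) (by positivity)
    rw [abs_mul, abs_of_nonneg (sq_nonneg _)]
    refine (mul_le_mul_of_nonneg_left (hK2 _ _) (sq_nonneg _)).trans (le_of_eq ?_)
    have := (hlk k).ne'
    field_simp
  · obtain ⟨s, hs⟩ : ∃ s, β s ≠ 0 := by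
      by_contra hcon
      push Not at hcon
      have := h_one
      simp [h, hcon] at this
    have hs' : s ∈ Icc (2 : ℝ) 3 := by_contra fun h => hs (β_zero s h)
    refine ⟨s, ?_⟩
    beta_reduce
    rw [tsum_eq_single 0]
    · simpa [T, c, ha0] using hs
    · intro k hk
      have : s / l ^ k ∉ Icc (2 : ℝ) 3 := fun h => by
        have h2 := h.2
        rw [div_le_iff₀ (hlk k)] at h2
        have := pow_le_pow_of_le_one hl0.le (by linarith : l ≤ 1) (Nat.one_le_iff_ne_zero.2 hk)
        rw [pow_one] at this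
        linarith [hs'.1]
      simp [T, β_zero _ this]
  · have := pow_right_injective₀ hl0 (by linarith : l ≠ 1) hij
    omega
  · simpa using hnear (j + 1) 0 (by simpa using hlk (j + 1))
  · refine IntegrableOn.integrable_of_forall_notMem_eq_zero (s := Icc (-5) 5) ?_ fun x hx => ?_
    · refine Measure.integrableOn_of_bounded (M := ‖a‖ * 2 * K / (l ^ (j + 1) / 4) ^ 2)
        measure_Icc_lt_top.ne ?_ (Eventually.of_forall fun x => ?_)
      · exact (((hNc.comp (continuous_const.add continuous_id)).measurable).div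
          (measurable_id.pow_const 2)).aestronglyMeasurable
      · beta_reduce
        by_cases hx : |x| < l ^ (j + 1) / 4
        · rw [hnear _ x hx, zero_div, norm_zero]; positivity
        · rw [norm_div, norm_pow, Real.norm_eq_abs, Real.norm_eq_abs]
          have := hlk (j + 1)
          gcongr
          · exact hNb _
          · exact not_lt.1 hx
    · beta_reduce
      rw [hfar, zero_div]
      rw [mem_Icc, not_and_or, not_le, not_le] at hx
      have := hlk (j + 1)
      have := hlk1 (j + 1)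
      rcases hx with h | h
      · rw [abs_of_neg (by linarith)]; linarith
      · rw [abs_of_pos (by linarith)]; linarith
  · set q := l ^ (j + 1) with hq
    let g : ℕ → ℝ → ℝ := fun k s => β s * (1 / (s - q / l ^ k) ^ 2)
    have hgi : ∀ k, Integrable (g k) := fun k => int23 β_cont β_zero (far_pow hl0 hl1 _ k).cont
    have e : ∀ k x, T k (q + x) / x ^ 2 = c k * g k (x / l ^ k + q / l ^ k) := by
      intro k x
      have := (hlk k).ne'
      simp only [T, g, add_sub_cancel_right, add_div, add_comm (q / l ^ k), div_pow]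
      by_cases hx : x = 0
      · simp [hx]
      · field_simp
    have hint : ∀ (φ : ℝ → ℝ) (k : ℕ), ∫ x, φ (x / l ^ k + q / l ^ k) = l ^ k * ∫ s, φ s := by
      intro φ k
      rw [Measure.integral_comp_div (fun y => φ (y + q / l ^ k)), integral_add_right_eq_self,
        abs_of_pos (hlk k), smul_eq_mul]
    have key := hasSum_integral_of_summable_integral_norm (μ := volume)
      (F := fun k x => c k * g k (x / l ^ k + q / l ^ k))
      (fun k => (((hgi k).comp_add_right _).comp_div (hlk k).ne').const_mul _) (by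
        refine Summable.of_nonneg_of_le (fun k => integral_nonneg fun _ => norm_nonneg _)
          (fun k => ?_) (hg (∫ s, |β s|)).summable
        simp only [Real.norm_eq_abs, abs_mul]
        rw [integral_const_mul, hint (fun s => |g k s|)]
        refine mul_le_mul (hc k) ?_ (mul_nonneg (hlk k).le
          (integral_nonneg fun _ => abs_nonneg _)) (by positivity)
        exact (mul_le_of_le_one_left (integral_nonneg fun _ => abs_nonneg _) (hlk1 k)).trans
          (h_abs (far_pow hl0 hl1 _ k)))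
    simp only [← e, tsum_div_const] at key
    rw [← key.tsum_eq, ← ha (j + 1) (Nat.succ_ne_zero j)]
    refine tsum_congr fun k => ?_
    simp only [e]
    rw [integral_const_mul, hint (g k), ← mul_assoc]
    rfl

theorem ray_int {N : ℝ → ℝ} {p : ℝ} (h0 : N p = 0) (hi : Integrable fun x => N (p + x) / x ^ 2)
    (hz : ∫ x, N (p + x) / x ^ 2 = 0) (c : ℝ) :
    IntegrableOn (fun w => N (p + c * w) / w ^ 2) (Ioi 0) ∧
      ∫ w in Ioi 0, N (p + c * w) / w ^ 2 = c * ∫ x in Ioi 0, N (p + x) / x ^ 2 := by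
  rcases eq_or_ne c 0 with rfl | hc
  · simp [h0]
  set g : ℝ → ℝ := fun x => N (p + x) / x ^ 2 with hg
  have e : (fun w => N (p + c * w) / w ^ 2) = fun w => c ^ 2 * g (c * w) := by
    funext w
    simp only [hg]
    by_cases hw : w = 0
    · simp [hw]
    · field_simp
  rw [e]
  refine ⟨((hi.comp_mul_left' hc).const_mul _).integrableOn, ?_⟩
  rw [integral_const_mul]
  rcases lt_or_gt_of_ne hc with h | h
  · have e2 : ∀ w, g (c * w) = (fun x => g (-x)) (-c * w) := fun w => by simp
    simp only [e2]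
    rw [integral_comp_mul_left_Ioi (fun x => g (-x)) 0 (neg_pos.2 h), mul_zero,
      integral_comp_neg_Ioi, neg_zero]
    have := intervalIntegral.integral_Iic_add_Ioi (b := 0) hi.integrableOn hi.integrableOn
    rw [hz] at this
    rw [eq_neg_of_add_eq_zero_left this, smul_eq_mul]
    field_simp
  · rw [integral_comp_mul_left_Ioi g 0 h, mul_zero, smul_eq_mul]
    field_simp

noncomputable def F (N : ℝ → ℝ) (u v : ℝ) : ℝ :=
  (N ((u + v) / (1 - v)) - 2 * N (u / (1 - v)) + N ((u - v) / (1 - v))) / v ^ 2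

noncomputable def f (N : ℝ → ℝ) (z : EuclideanSpace ℝ (Fin 2)) : ℝ :=
  if 0 < z 1 ∧ z 1 < 1 then F N (z 0) (z 1) else 0

theorem ray_zero {N : ℝ → ℝ} {p : ℝ} (h0 : N p = 0) (hi : Integrable fun x => N (p + x) / x ^ 2)
    (hz : ∫ x, N (p + x) / x ^ 2 = 0) (u : EuclideanSpace ℝ (Fin 2)) :
    ∫ t in Ioi (0 : ℝ), f N (!₂[p, 0] + t • u) = 0 := by
  have e0 : ∀ t : ℝ, (!₂[p, 0] + t • u : EuclideanSpace ℝ (Fin 2)) 0 = p + t * u 0 := by
    intro t; simp
  have e1 : ∀ t : ℝ, (!₂[p, 0] + t • u : EuclideanSpace ℝ (Fin 2)) 1 = t * u 1 := by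
    intro t; simp
  simp only [f, e0, e1]
  rcases le_or_gt (u 1) 0 with hu | hu
  · refine setIntegral_eq_zero_of_forall_eq_zero fun t ht => if_neg fun h => ?_
    have := mul_nonpos_of_nonneg_of_nonpos (le_of_lt ht) hu
    linarith [h.1]
  set a := u 0
  set b := u 1
  have hsub : (fun w => w / ((1 + w) * b)) '' Ioi 0 ⊆ Ioi (0 : ℝ) := by
    rintro _ ⟨w, hw, rfl⟩
    have : 0 < w := hw
    exact mem_Ioi.2 (by positivity)
  rw [setIntegral_eq_of_subset_of_forall_diff_eq_zero measurableSet_Ioi hsub,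
    integral_image_eq_integral_abs_deriv_smul (f' := fun w => 1 / ((1 + w) ^ 2 * b))
      measurableSet_Ioi]
  · have h1 := ray_int h0 hi hz (p + a / b + 1)
    have h2 := ray_int h0 hi hz (p + a / b)
    have h3 := ray_int h0 hi hz (p + a / b - 1)
    rw [setIntegral_congr_fun (g := fun w => b⁻¹ * (N (p + (p + a / b + 1) * w) / w ^ 2 -
      2 * (N (p + (p + a / b) * w) / w ^ 2) + N (p + (p + a / b - 1) * w) / w ^ 2))
      measurableSet_Ioi, integral_const_mul, int3 h1.1 h2.1 h3.1, h1.2, h2.2, h3.2]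
    · ring
    · intro w hw
      have hw : 0 < w := hw
      have ev : w / ((1 + w) * b) * b = w / (1 + w) := by field_simp
      have ev1 : 1 - w / (1 + w) = 1 / (1 + w) := by field_simp; ring
      simp only [ev]
      rw [if_pos ⟨by positivity, (div_lt_one (by positivity)).2 (by linarith)⟩, F, ev1,
        abs_of_pos (by positivity), smul_eq_mul]
      have c1 : (p + w / ((1 + w) * b) * a + w / (1 + w)) / (1 / (1 + w)) =
          p + (p + a / b + 1) * w := by field_simp; ring
      have c2 : (p + w / ((1 + w) * b) * a) / (1 / (1 + w)) = p + (p + a / b) * w := by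
        field_simp; ring
      have c3 : (p + w / ((1 + w) * b) * a - w / (1 + w)) / (1 / (1 + w)) =
          p + (p + a / b - 1) * w := by field_simp; ring
      rw [c1, c2, c3]
      field_simp
  · intro w hw
    have hw : 0 < w := hw
    refine HasDerivAt.hasDerivWithinAt ?_
    convert! (hasDerivAt_id w).div (((hasDerivAt_id w).const_add 1).mul_const b)
      (by simp only [id]; positivity) using 1
    simp only [id]
    field_simp
    ring
  · intro w hw w' hw' h
    have hw : 0 < w := hw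
    have hw' : 0 < w' := hw'
    simp only at h
    rw [div_eq_div_iff (by positivity) (by positivity)] at h
    have : b * (w - w') = 0 := by linarith
    rcases mul_eq_zero.1 this with h | h
    · exact absurd h hu.ne'
    · linarith
  · rintro t ⟨ht, ht'⟩
    refine if_neg fun h => ht' ⟨t * b / (1 - t * b), ?_, ?_⟩
    · exact mem_Ioi.2 (div_pos h.1 (by linarith [h.2]))
    · have : 1 - t * b ≠ 0 := by linarith [h.2]
      simp only
      field_simp
      ring

end Aux

theorem result :
    ∃ (g : EuclideanSpace ℝ (Fin 2) → ℝ) (P : Set (EuclideanSpace ℝ (Fin 2))),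
      Measurable g ∧ (∃ C, ∀ z, |g z| ≤ C) ∧ Bornology.IsBounded (Function.support g) ∧
      ¬ g =ᵐ[volume] 0 ∧ P.Infinite ∧
      ∀ p ∈ P, ∀ u : EuclideanSpace ℝ (Fin 2), ‖u‖ = 1 → ∫ t in Ioi (0 : ℝ), g (p + t • u) = 0 := by
  obtain ⟨N, p, K, hc, hb, hd, hs, ⟨x₀, hx₀⟩, hp, hj⟩ := exists_N
  have hK : 0 ≤ K := (abs_nonneg _).trans (hb 0)
  have m0 : Continuous fun z : EuclideanSpace ℝ (Fin 2) => z 0 := by fun_prop
  have m1 : Continuous fun z : EuclideanSpace ℝ (Fin 2) => z 1 := by fun_prop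
  have hU : IsOpen {z : EuclideanSpace ℝ (Fin 2) | 0 < z 1 ∧ z 1 < 1} :=
    (isOpen_lt continuous_const m1).inter (isOpen_lt m1 continuous_const)
  refine ⟨f N, range fun j => !₂[p j, 0], ?_, ⟨16 * K, fun z => ?_⟩, ?_, fun h => ?_, ?_, ?_⟩
  · refine Measurable.ite hU.measurableSet ?_ measurable_const
    have := hc.measurable
    have := m0.measurable
    have := m1.measurable
    unfold F
    fun_prop
  · unfold f
    split_ifs with h
    · obtain ⟨h0, h1⟩ := h
      generalize z 0 = u
      generalize z 1 = v at h0 h1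
      rw [F, abs_div, abs_of_pos (pow_pos h0 2), div_le_iff₀ (pow_pos h0 2)]
      rcases le_total v (1 / 2) with h2 | h2
      · rw [add_div, sub_div]
        refine (hd _ _).trans ?_
        have : v / (1 - v) ≤ 2 * v := by rw [div_le_iff₀ (by linarith)]; nlinarith
        have h3 : (v / (1 - v)) ^ 2 ≤ (2 * v) ^ 2 :=
          pow_le_pow_left₀ (div_nonneg h0.le (by linarith)) this 2
        nlinarith [sq_nonneg v]
      · have a1 := abs_le.1 (hb ((u + v) / (1 - v)))
        have a2 := abs_le.1 (hb (u / (1 - v)))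
        have a3 := abs_le.1 (hb ((u - v) / (1 - v)))
        have : 1 / 4 ≤ v ^ 2 := by nlinarith
        rw [abs_le]
        constructor <;> nlinarith
    · simpa using hK
  · refine (Metric.isBounded_closedBall (x := 0) (r := 6)).subset fun z hz => ?_
    rw [Function.mem_support] at hz
    have h : 0 < z 1 ∧ z 1 < 1 := by_contra fun h => hz (if_neg h)
    have h5 : |z 0| < 5 := by
      by_contra h5
      have key : ∀ y, 4 ≤ |y| → N (y / (1 - z 1)) = 0 := fun y hy => hs _ (by
        rw [abs_div, abs_of_pos (a := 1 - z 1) (by linarith [h.2]), le_div_iff₀ (by linarith [h.2])]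
        nlinarith [h.1])
      apply hz
      rw [f, if_pos h, F, key, key, key]
      · simp
      all_goals
        rcases le_abs.1 (not_lt.1 h5) with h6 | h6
        · exact le_abs.2 (Or.inl (by linarith [h.1, h.2]))
        · exact le_abs.2 (Or.inr (by linarith [h.1, h.2]))
    rw [mem_closedBall_zero_iff, EuclideanSpace.norm_eq, Real.sqrt_le_left (by norm_num)]
    simp only [Fin.sum_univ_two, Real.norm_eq_abs, sq_abs]
    have := abs_lt.1 h5
    nlinarith [h.1, h.2]
  · have hcont : ContinuousOn (f N) {z : EuclideanSpace ℝ (Fin 2) | 0 < z 1 ∧ z 1 < 1} := by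
      refine ContinuousOn.congr 
        (f := fun z : EuclideanSpace ℝ (Fin 2) => F N (z 0) (z 1)) ?_
        fun z (hz : 0 < z 1 ∧ z 1 < 1) => if_pos hz
      have hq : ∀ φ : EuclideanSpace ℝ (Fin 2) → ℝ, Continuous φ → ContinuousOn
          (fun z => N (φ z / (1 - z 1))) {z : EuclideanSpace ℝ (Fin 2) | 0 < z 1 ∧ z 1 < 1} :=
        fun φ hφ => hc.comp_continuousOn (hφ.continuousOn.div
          (continuous_const.sub m1).continuousOn fun z hz => by linarith [hz.2])
      exact (((hq _ (m0.add m1)).sub (continuousOn_const.mul (hq _ m0))).add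
        (hq _ (m0.sub m1))).div (m1.pow 2).continuousOn fun z hz => pow_ne_zero _ hz.1.ne'
    have h1 := Measure.eqOn_open_of_ae_eq (ae_restrict_of_ae h) hU hcont continuousOn_const
    have h2 : (!₂[x₀ / 9, 8 / 9] : EuclideanSpace ℝ (Fin 2)) ∈
        {z : EuclideanSpace ℝ (Fin 2) | 0 < z 1 ∧ z 1 < 1} := by
      simp only [mem_ofPred_eq]; norm_num
    have h3 := h1 h2
    rw [f, if_pos (mem_ofPred_eq ▸ h2 :)] at h3
    change F N (x₀ / 9) (8 / 9) = 0 at h3
    have h4 : |x₀| < 4 := by_contra fun h => hx₀ (hs _ (not_lt.1 h))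
    have h5 := abs_lt.1 h4
    have c1 : (x₀ / 9 + 8 / 9) / (1 - 8 / 9) = x₀ + 8 := by ring
    have c2 : (x₀ / 9) / (1 - 8 / 9) = x₀ := by ring
    have c3 : (x₀ / 9 - 8 / 9) / (1 - 8 / 9) = x₀ - 8 := by ring
    rw [F, c1, c2, c3, hs (x₀ + 8) (le_abs.2 (Or.inl (by linarith))),
      hs (x₀ - 8) (le_abs.2 (Or.inr (by linarith)))] at h3
    apply hx₀
    field_simp at h3
    linarith
  · refine infinite_range_of_injective fun i j h => hp ?_
    exact congrArg (fun z : EuclideanSpace ℝ (Fin 2) => z 0) h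
  · rintro _ ⟨j, rfl⟩ u -
    exact ray_zero (hj j).1 (hj j).2.1 (hj j).2.2 u

end Pool.Agent.Results.MP_113557_an.Ghost
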